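import Mathlib

/-! # Truncated multiple zeta-star sums and the conserved quantity -/

set_option autoImplicit false

namespace Run7.h102.EI

open Finset Filter Topology

/-- The truncated multiple zeta-star sum: the sum of `n₁^(-k₁) ⋯ n_r^(-k_r)` over
`N ≥ n₁ ≥ n₂ ≥ ⋯ ≥ n_r ≥ 1`. -/
noncomputable def S : List ℕ → ℕ → ℝ
  | [] => fun _ => 1
  | k :: l => fun N => ∑ n ∈ Icc 1 N, 1 / (n : ℝ) ^ k * S l n

theorem S_succ (k : ℕ) (l : List ℕ) (N : ℕ) :
    S (k :: l) (N + 1) = S (k :: l) N + 1 / ((N : ℝ) + 1) ^ k * S l (N + 1) := by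
  show ∑ n ∈ Icc 1 (N + 1), 1 / (n : ℝ) ^ k * S l n = ∑ n ∈ Icc 1 N, 1 / (n : ℝ) ^ k * S l n + _
  rw [Finset.sum_Icc_succ_top (by omega)]
  push_cast
  rfl

theorem S_one (l : List ℕ) : S l 1 = 1 := by
  induction l with
  | nil => rfl
  | cons k l ih => rw [S]; simp [ih]

theorem S_nonneg (l : List ℕ) : ∀ N, 0 ≤ S l N := by
  induction l with
  | nil => intro N; simp [S]
  | cons k l ih =>
    intro N
    rw [S]
    exact Finset.sum_nonneg fun n _ => mul_nonneg (by positivity) (ih n)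

theorem S_mono (l : List ℕ) : Monotone (S l) := by
  cases l with
  | nil => intro a b _; simp [S]
  | cons k l =>
    refine monotone_nat_of_le_succ fun N => ?_
    rw [S_succ]
    have := mul_nonneg (show (0 : ℝ) ≤ 1 / ((N : ℝ) + 1) ^ k by positivity) (S_nonneg l (N + 1))
    linarith

theorem one_le_S (l : List ℕ) (N : ℕ) (hN : 1 ≤ N) : 1 ≤ S l N := by
  have := S_mono l hN
  rwa [S_one] at this

/-- longer words have larger sums -/
theorem S_append (l l' : List ℕ) : ∀ N, 1 ≤ N → S l N ≤ S (l ++ l') N := by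
  induction l with
  | nil => intro N hN; exact one_le_S l' N hN
  | cons k l ih =>
    intro N _
    rw [List.cons_append, S, S]
    refine Finset.sum_le_sum fun n hn => ?_
    exact mul_le_mul_of_nonneg_left (ih n (Finset.mem_Icc.1 hn).1) (by positivity)

theorem sqrt_sum (N : ℕ) : ∑ n ∈ Icc 1 N, 1 / Real.sqrt n ≤ 2 * Real.sqrt N := by
  induction N with
  | zero => simp
  | succ N ih =>
    rw [Finset.sum_Icc_succ_top (by omega)]
    have h1 : Real.sqrt N ≤ Real.sqrt (N + 1 : ℕ) := Real.sqrt_le_sqrt (by push_cast; linarith)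
    have h2 : Real.sqrt (N + 1 : ℕ) * Real.sqrt (N + 1 : ℕ) = (N : ℝ) + 1 := by
      rw [Real.mul_self_sqrt (by positivity)]; push_cast; rfl
    have h3 : Real.sqrt N * Real.sqrt N = (N : ℝ) := Real.mul_self_sqrt (by positivity)
    have h0 : 0 < Real.sqrt (N + 1 : ℕ) := Real.sqrt_pos.2 (by positivity)
    have h4 : 1 / Real.sqrt (N + 1 : ℕ) ≤ 2 * Real.sqrt (N + 1 : ℕ) - 2 * Real.sqrt N := by
      rw [div_le_iff₀ h0]
      nlinarith [Real.sqrt_nonneg N]
    linarith

/-- growth slower than linear -/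
theorem S_le_sqrt (l : List ℕ) (hl : ∀ k ∈ l, 1 ≤ k) : ∀ N, 1 ≤ N →
    S l N ≤ 2 ^ l.length * Real.sqrt N := by
  induction l with
  | nil =>
    intro N hN
    simp only [S, List.length_nil, pow_zero, one_mul]
    rw [Real.one_le_sqrt]
    exact_mod_cast hN
  | cons k l ih =>
    intro N _
    rw [S]
    have h1 : ∀ n ∈ Icc 1 N, 1 / (n : ℝ) ^ k * S l n ≤ 2 ^ l.length * (1 / Real.sqrt n) := by
      intro n hn
      have hn1 := (Finset.mem_Icc.1 hn).1
      have hn' : (1 : ℝ) ≤ n := by exact_mod_cast hn1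
      have hn0 : (0 : ℝ) < n := by linarith
      have e1 := ih (fun k hk => hl k (List.mem_cons_of_mem _ hk)) n hn1
      have e2 : 1 / (n : ℝ) ^ k ≤ 1 / n := by
        refine one_div_le_one_div_of_le hn0 ?_
        calc (n : ℝ) = (n : ℝ) ^ 1 := (pow_one _).symm
          _ ≤ (n : ℝ) ^ k := pow_le_pow_right₀ hn' (hl k (by simp))
      have e3 : 1 / (n : ℝ) * Real.sqrt n = 1 / Real.sqrt n := by
        have h0 : Real.sqrt n ≠ 0 := (Real.sqrt_pos.2 hn0).ne'
        have h5 : Real.sqrt n * Real.sqrt n = n := Real.mul_self_sqrt hn0.le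
        field_simp
        rw [sq, h5]
      calc 1 / (n : ℝ) ^ k * S l n ≤ 1 / n * (2 ^ l.length * Real.sqrt n) :=
            mul_le_mul e2 e1 (S_nonneg _ _) (by positivity)
        _ = 2 ^ l.length * (1 / n * Real.sqrt n) := by ring
        _ = _ := by rw [e3]
    refine (Finset.sum_le_sum h1).trans ?_
    rw [← Finset.mul_sum, List.length_cons, pow_succ]
    have := sqrt_sum N
    have h2 : (0 : ℝ) ≤ 2 ^ l.length := by positivity
    nlinarith

/-- the sum over `1 ≤ j ≤ m` of the sums of the words `1^j w` -/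
noncomputable def U (w : List ℕ) (m : ℕ) (N : ℕ) : ℝ :=
  ∑ j ∈ range m, S (List.replicate (j + 1) 1 ++ w) N

theorem U_step (w : List ℕ) (m N : ℕ) :
    U w m (N + 1) = U w m N + 1 / ((N : ℝ) + 1) *
      (U w m (N + 1) - S (List.replicate m 1 ++ w) (N + 1) + S w (N + 1)) := by
  induction m with
  | zero => simp [U]
  | succ m ih =>
    have e : ∀ M, U w (m + 1) M = U w m M + S (List.replicate (m + 1) 1 ++ w) M := by
      intro M; rw [U, Finset.sum_range_succ]; rfl
    rw [e, e]
    have h := S_succ 1 (List.replicate m 1 ++ w) N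
    have h' : (1 : ℕ) :: (List.replicate m 1 ++ w) = List.replicate (m + 1) 1 ++ w := rfl
    rw [h'] at h
    rw [pow_one] at h
    linear_combination ih + h

/-- The conserved quantity (up to a correction). -/
noncomputable def C (m : ℕ) (w : List ℕ) (N : ℕ) : ℝ :=
  S (2 :: (List.replicate m 1 ++ w)) N * (1 + 1 / N) + U w m N / N

theorem C_one (m : ℕ) (w : List ℕ) : C m w 1 = m + 2 := by
  unfold C U
  simp only [S_one]
  simp
  ring

theorem C_step (m : ℕ) (w : List ℕ) (N : ℕ) (hN : 1 ≤ N) :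
    C m w N = C m w (N + 1) +
      (S (2 :: (List.replicate m 1 ++ w)) (N + 1) - S w (N + 1)) / (((N : ℝ) + 1) * N) := by
  have hN0 : (N : ℝ) ≠ 0 := by positivity
  have hN1 : (N : ℝ) + 1 ≠ 0 := by positivity
  have h1 := S_succ 2 (List.replicate m 1 ++ w) N
  have h2 := U_step w m N
  unfold C
  push_cast
  set A := S (2 :: (List.replicate m 1 ++ w)) (N + 1)
  set A0 := S (2 :: (List.replicate m 1 ++ w)) N
  set Am := S (List.replicate m 1 ++ w) (N + 1)
  set B := S w (N + 1)
  set U1 := U w m (N + 1)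
  set U0 := U w m N
  have e1 : A0 = A - 1 / ((N : ℝ) + 1) ^ 2 * Am := by linarith
  have e2 : U0 = U1 - 1 / ((N : ℝ) + 1) * (U1 - Am + B) := by linarith
  rw [e1, e2]
  field_simp
  ring

end Run7.h102.EI
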