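import Pool.Agent.Run7.h102.EI.Basic

set_option autoImplicit false

namespace Run7.h102.EI

open Finset Filter Topology

/-- the block `2, 1, …, 1` (`m` ones) -/
def blk (m : ℕ) : List ℕ := 2 :: List.replicate m 1

/-- the block repeated `I` times -/
def W (m : ℕ) : ℕ → List ℕ
  | 0 => []
  | I + 1 => 2 :: (List.replicate m 1 ++ W m I)

theorem W_length (m I : ℕ) : (W m I).length = (m + 1) * I := by
  induction I with
  | zero => simp [W]
  | succ I ih => simp [W, ih]; ring

theorem W_pos (m I : ℕ) : ∀ k ∈ W m I, 1 ≤ k := by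
  induction I with
  | zero => simp [W]
  | succ I ih =>
    intro k hk
    rw [W, List.mem_cons, List.mem_append] at hk
    rcases hk with rfl | hk | hk
    · omega
    · rw [(List.mem_replicate.1 hk).2]
    · exact ih k hk

theorem W_succ' (m I : ℕ) : W m (I + 1) = W m I ++ W m 1 := by
  induction I with
  | zero => simp [W]
  | succ I ih =>
    show 2 :: (List.replicate m 1 ++ W m (I + 1)) = (2 :: (List.replicate m 1 ++ W m I)) ++ W m 1
    rw [ih, List.cons_append, List.append_assoc]

theorem S_W_mono (m N : ℕ) (hN : 1 ≤ N) : Monotone fun I => S (W m I) N := by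
  refine monotone_nat_of_le_succ fun I => ?_
  show S (W m I) N ≤ S (W m (I + 1)) N
  rw [W_succ']
  exact S_append _ _ N hN

theorem U_nonneg (w : List ℕ) (m N : ℕ) : 0 ≤ U w m N :=
  Finset.sum_nonneg fun _ _ => S_nonneg _ _

/-- `C` of the `I`-th repetition -/
noncomputable def D (m I N : ℕ) : ℝ := C m (W m I) N

theorem D_eq (m I N : ℕ) : D m I N = S (W m (I + 1)) N * (1 + 1 / N) + U (W m I) m N / N := rfl

theorem D_step (m I N : ℕ) (hN : 1 ≤ N) :
    D m I N = D m I (N + 1) + (S (W m (I + 1)) (N + 1) - S (W m I) (N + 1)) / (((N : ℝ) + 1) * N) :=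
  C_step m (W m I) N hN

theorem D_le (m I N : ℕ) (hN : 1 ≤ N) : D m I N ≤ m + 2 := by
  induction N, hN using Nat.le_induction with
  | base => rw [D, C_one]
  | succ N hN ih =>
    have h := D_step m I N hN
    have h1 : S (W m I) (N + 1) ≤ S (W m (I + 1)) (N + 1) :=
      S_W_mono m (N + 1) (by omega) (Nat.le_succ I)
    have h2 : 0 ≤ (S (W m (I + 1)) (N + 1) - S (W m I) (N + 1)) / (((N : ℝ) + 1) * N) :=
      div_nonneg (by linarith) (by positivity)
    linarith

theorem S_W_le (m I N : ℕ) (hN : 1 ≤ N) : S (W m I) N ≤ m + 2 := by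
  have h := D_le m I N hN
  rw [D_eq] at h
  have h1 : S (W m I) N ≤ S (W m (I + 1)) N := S_W_mono m N hN (Nat.le_succ I)
  have h2 := S_nonneg (W m (I + 1)) N
  have h3 : 0 ≤ U (W m I) m N / N := div_nonneg (U_nonneg _ _ _) (by positivity)
  have h4 : (0 : ℝ) ≤ 1 / N := by positivity
  nlinarith

/-- summing over the repetitions -/
theorem D_sum (m I N : ℕ) (hN : 1 ≤ N) :
    ((I : ℝ) - 1) * (m + 2) ≤ ∑ i ∈ range I, D m i N := by
  have key : ∀ N, 1 ≤ N → (I : ℝ) * (m + 2) - (m + 2) * (1 - 1 / N) ≤ ∑ i ∈ range I, D m i N := by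
    intro N hN
    induction N, hN using Nat.le_induction with
    | base =>
      simp only [D, C_one]
      simp
      linarith
    | succ N hN ih =>
      have hN0 : (0 : ℝ) < N := by exact_mod_cast hN
      have h1 : ∑ i ∈ range I, D m i N = ∑ i ∈ range I, D m i (N + 1) +
          (S (W m I) (N + 1) - S (W m 0) (N + 1)) / (((N : ℝ) + 1) * N) := by
        rw [← Finset.sum_range_sub (fun i => S (W m i) (N + 1)), Finset.sum_div, ← Finset.sum_add_distrib]
        exact Finset.sum_congr rfl fun i _ => D_step m i N hN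
      have h2 : (S (W m I) (N + 1) - S (W m 0) (N + 1)) / (((N : ℝ) + 1) * N) ≤
          (m + 2) / (((N : ℝ) + 1) * N) := by
        refine div_le_div_of_nonneg_right ?_ (by positivity)
        have := S_W_le m I (N + 1) (by omega)
        have := S_nonneg (W m 0) (N + 1)
        linarith
      have h3 : (m + 2 : ℝ) / (((N : ℝ) + 1) * N) = (m + 2) * (1 / N - 1 / (N + 1)) := by
        field_simp
        ring
      rw [h3] at h2
      push_cast
      linarith
  have h := key N hN
  have h4 : (0 : ℝ) ≤ (m + 2) * (1 / N) := by positivity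
  nlinarith

theorem U_mono (m I J N : ℕ) (hN : 1 ≤ N) (h : I ≤ J) : U (W m I) m N ≤ U (W m J) m N := by
  refine Finset.sum_le_sum fun j _ => ?_
  obtain ⟨t, rfl⟩ := Nat.exists_eq_add_of_le h
  have e : ∀ t, ∃ v, W m (I + t) = W m I ++ v := by
    intro t
    induction t with
    | zero => exact ⟨[], by simp⟩
    | succ t ih =>
      obtain ⟨v, hv⟩ := ih
      exact ⟨v ++ W m 1, by rw [← add_assoc, W_succ', hv, List.append_assoc]⟩
  obtain ⟨v, hv⟩ := e t
  rw [hv, ← List.append_assoc]
  exact S_append _ _ N hN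

theorem lower (m I N : ℕ) (hN : 1 ≤ N) :
    ((I : ℝ) - 1) * (m + 2) ≤ I * (S (W m I) N * (1 + 1 / N) + U (W m I) m N / N) := by
  refine (D_sum m I N hN).trans ?_
  have h : ∀ i ∈ range I, D m i N ≤ S (W m I) N * (1 + 1 / N) + U (W m I) m N / N := by
    intro i hi
    have hi' := Finset.mem_range.1 hi
    rw [D_eq]
    have h1 : S (W m (i + 1)) N ≤ S (W m I) N := S_W_mono m N hN (by omega)
    have h2 := U_mono m i I N hN (by omega)
    have h3 : (0 : ℝ) ≤ 1 + 1 / N := by positivity
    have h4 : U (W m i) m N / N ≤ U (W m I) m N / N := div_le_div_of_nonneg_right h2 (by positivity)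
    have := mul_le_mul_of_nonneg_right h1 h3
    linarith
  have := Finset.sum_le_card_nsmul (range I) _ _ h
  rw [Finset.card_range, nsmul_eq_mul] at this
  exact this

theorem U_div (m I : ℕ) : Tendsto (fun N : ℕ => U (W m I) m N / N) atTop (𝓝 0) := by
  have hb : ∀ N : ℕ, 1 ≤ N → U (W m I) m N / N ≤
      (∑ j ∈ range m, 2 ^ (List.replicate (j + 1) 1 ++ W m I).length) * (Real.sqrt N)⁻¹ := by
    intro N hN
    have hN0 : (0 : ℝ) < N := by exact_mod_cast hN
    have h1 : U (W m I) m N ≤ (∑ j ∈ range m, 2 ^ (List.replicate (j + 1) 1 ++ W m I).length) *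
        Real.sqrt N := by
      unfold U
      rw [Finset.sum_mul]
      refine Finset.sum_le_sum fun j _ => S_le_sqrt _ ?_ N hN
      intro k hk
      rw [List.mem_append] at hk
      rcases hk with hk | hk
      · rw [(List.mem_replicate.1 hk).2]
      · exact W_pos m I k hk
    rw [div_le_iff₀ hN0]
    refine h1.trans (le_of_eq ?_)
    have h5 : Real.sqrt N * Real.sqrt N = N := Real.mul_self_sqrt hN0.le
    have h0 : Real.sqrt N ≠ 0 := (Real.sqrt_pos.2 hN0).ne'
    rw [mul_assoc]
    congr 1
    field_simp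
    rw [sq, h5]
  have ht : Tendsto (fun N : ℕ => (∑ j ∈ range m, 2 ^ (List.replicate (j + 1) 1 ++ W m I).length) *
      (Real.sqrt N)⁻¹) atTop (𝓝 ((∑ j ∈ range m, 2 ^ (List.replicate (j + 1) 1 ++ W m I).length) * 0)) := by
    refine Tendsto.const_mul _ ?_
    exact tendsto_inv_atTop_zero.comp (Real.tendsto_sqrt_atTop.comp tendsto_natCast_atTop_atTop)
  rw [mul_zero] at ht
  refine tendsto_of_tendsto_of_tendsto_of_le_of_le' tendsto_const_nhds ht ?_ ?_
  · exact Eventually.of_forall fun N => div_nonneg (U_nonneg _ _ _) (by positivity)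
  · filter_upwards [eventually_ge_atTop 1] with N hN using hb N hN

/-- the limit for the repeated block is at least `(1 - 1 / I) (m + 2)` -/
theorem limit_ge (m I : ℕ) (x : ℝ) (hx : Tendsto (fun N => S (W m I) N) atTop (𝓝 x)) :
    ((I : ℝ) - 1) * (m + 2) ≤ I * x := by
  have h1 : Tendsto (fun N : ℕ => (I : ℝ) * (S (W m I) N * (1 + 1 / (N : ℝ)) + U (W m I) m N / N)) atTop
      (𝓝 ((I : ℝ) * (x * (1 + 0) + 0))) := by
    refine Tendsto.const_mul _ (Tendsto.add (Tendsto.mul hx (Tendsto.const_add _ ?_)) (U_div m I))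
    exact tendsto_one_div_atTop_nhds_zero_nat
  simp only [add_zero, mul_one] at h1
  refine ge_of_tendsto h1 ?_
  filter_upwards [eventually_ge_atTop 1] with N hN using lower m I N hN

end Run7.h102.EI
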